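import Mathlib

/-! A graph on 12 vertices with `Z* = Z = 2` and fort number `1`. -/

namespace Pool.Agent.Results.MP_7d76f2_co.Counter

open Finset

section Defs

variable {V : Type} [Fintype V] [DecidableEq V] (G : SimpleGraph V) [DecidableRel G.Adj]

/-- The vertices that end up filled when `S` is filled at the start and the colour change rule
(a filled vertex `u` all of whose neighbours other than `w` are filled fills `w`) is applied
until nothing changes. -/
inductive Filled (G : SimpleGraph V) (S : Finset V) : V → Prop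
  | base {v : V} : v ∈ S → Filled G S v
  | force {u w : V} : Filled G S u → G.Adj u w → (∀ x, G.Adj u x → x ≠ w → Filled G S x) →
      Filled G S w

/-- The zero forcing number: the least size of a set that fills every vertex. -/
noncomputable def zf (G : SimpleGraph V) : ℕ :=
  sInf {n : ℕ | ∃ S : Finset V, S.card = n ∧ ∀ v, Filled G S v}

/-- A fort: a nonempty set `F` such that no vertex outside `F` has exactly one neighbour in `F`. -/
def IsFort (F : Finset V) : Prop :=
  F.Nonempty ∧ ∀ v, v ∉ F → (F.filter (G.Adj v)).card ≠ 1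

/-- The fort number: the largest number of pairwise disjoint forts. -/
noncomputable def ft : ℕ :=
  sSup {n : ℕ | ∃ T : Finset (Finset V), T.card = n ∧ (∀ F ∈ T, IsFort G F) ∧
    ∀ F ∈ T, ∀ F' ∈ T, F ≠ F' → Disjoint F F'}

/-- The fractional zero forcing number: the least total weight of a nonnegative weighting that
gives every minimal fort weight at least `1`. -/
noncomputable def zstar : ℝ :=
  sInf {s : ℝ | ∃ x : V → ℝ, (∀ v, 0 ≤ x v) ∧
    (∀ F : Finset V, Minimal (IsFort G) F → 1 ≤ ∑ v ∈ F, x v) ∧ s = ∑ v, x v}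

omit [Fintype V] in
theorem not_mem_of_filled {S F : Finset V} (hF : IsFort G F) (hd : Disjoint S F) {v : V}
    (h : Filled G S v) : v ∉ F := by
  induction h with
  | base hv => exact disjoint_left.mp hd hv
  | @force u w _ huw _ ih1 ih2 =>
    intro hw
    apply hF.2 u ih1
    rw [card_eq_one]
    refine ⟨w, eq_singleton_iff_unique_mem.mpr ⟨mem_filter.mpr ⟨hw, huw⟩, fun x hx => ?_⟩⟩
    by_contra hne
    exact ih2 x (mem_filter.mp hx).2 hne (mem_filter.mp hx).1

end Defs

def adjm : List ℕ := [36, 2216, 1, 18, 72, 387, 144, 1122, 544, 1280, 640, 2]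

def adjb (a b : ℕ) : Bool := (adjm.getD a 0).testBit b

def G0 : SimpleGraph (Fin 12) where
  Adj a b := adjb a b = true
  symm := ⟨by decide⟩
  loopless := ⟨by decide⟩

instance : DecidableRel G0.Adj := fun a b => inferInstanceAs (Decidable (adjb a b = true))

instance (F : Finset (Fin 12)) : Decidable (IsFort G0 F) := by
  unfold IsFort; infer_instance

theorem zfs : ∀ v, Filled G0 {2, 8} v := by
  have h2 : Filled G0 {2, 8} 2 := Filled.base (by decide)
  have h8 : Filled G0 {2, 8} 8 := Filled.base (by decide)
  have h0 : Filled G0 {2, 8} 0 := Filled.force h2 (by decide) (fun x hx hn => by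
    have : False := by revert x; decide
    exact this.elim)
  have h5 : Filled G0 {2, 8} 5 := Filled.force h0 (by decide) (fun x hx hn => by
    have : x = 2 := by revert x; decide
    rw [this]; exact h2)
  have h9 : Filled G0 {2, 8} 9 := Filled.force h8 (by decide) (fun x hx hn => by
    have : x = 5 := by revert x; decide
    rw [this]; exact h5)
  have h10 : Filled G0 {2, 8} 10 := Filled.force h9 (by decide) (fun x hx hn => by
    have : x = 8 := by revert x; decide
    rw [this]; exact h8)
  have h7 : Filled G0 {2, 8} 7 := Filled.force h10 (by decide) (fun x hx hn => by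
    have : x = 9 := by revert x; decide
    rw [this]; exact h9)
  have h1 : Filled G0 {2, 8} 1 := Filled.force h5 (by decide) (fun x hx hn => by
    have : x = 0 ∨ x = 7 ∨ x = 8 := by revert x; decide
    rcases this with rfl | rfl | rfl <;> assumption)
  have h6 : Filled G0 {2, 8} 6 := Filled.force h7 (by decide) (fun x hx hn => by
    have : x = 1 ∨ x = 5 ∨ x = 10 := by revert x; decide
    rcases this with rfl | rfl | rfl <;> assumption)
  have h4 : Filled G0 {2, 8} 4 := Filled.force h6 (by decide) (fun x hx hn => by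
    have : x = 7 := by revert x; decide
    rw [this]; exact h7)
  have h3 : Filled G0 {2, 8} 3 := Filled.force h4 (by decide) (fun x hx hn => by
    have : x = 6 := by revert x; decide
    rw [this]; exact h6)
  have h11 : Filled G0 {2, 8} 11 := Filled.force h1 (by decide) (fun x hx hn => by
    have : x = 3 ∨ x = 5 ∨ x = 7 := by revert x; decide
    rcases this with rfl | rfl | rfl <;> assumption)
  intro v
  fin_cases v <;> assumption

def nbL : List (ℕ × List ℕ) :=
  [(0, [2, 5]), (1, [3, 5, 7, 11]), (2, [0]), (3, [1, 4]),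
   (4, [3, 6]), (5, [0, 1, 7, 8]), (6, [4, 7]), (7, [1, 5, 6, 10]),
   (8, [5, 9]), (9, [8, 10]), (10, [7, 9]), (11, [1])]

def fortb (n : ℕ) : Bool :=
  nbL.all fun q => n.testBit q.1 || q.2.countP n.testBit != 1

theorem nbL_spec : ∀ q ∈ nbL, ∃ v : Fin 12, q.1 = v.val ∧
    q.2 = ((List.finRange 12).filter (fun w : Fin 12 => adjb v w)).map Fin.val := by
  decide +kernel

def fortList : List ℕ :=
  [700, 701, 748, 749, 764, 765, 920, 925, 956, 957, 968, 973, 984, 989, 1004, 1005, 1020,
   1021, 1388, 1389, 1404, 1405, 1432, 1437, 1468, 1469, 1480, 1485, 1496, 1501, 1516, 1517,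
   1532, 1533, 1644, 1645, 1660, 1661, 1724, 1725, 1772, 1773, 1788, 1789, 1900, 1901, 1916,
   1917, 1944, 1949, 1980, 1981, 1992, 1997, 2008, 2013, 2028, 2029, 2044, 2045, 2127, 2135,
   2143, 2742, 2743, 2748, 2749, 2750, 2751, 2796, 2797, 2798, 2799, 2806, 2807, 2812, 2813,
   2814, 2815, 2962, 2967, 2968, 2970, 2973, 2975, 2998, 2999, 3004, 3005, 3006, 3007, 3016,
   3018, 3021, 3023, 3026, 3031, 3032, 3034, 3037, 3039, 3052, 3053, 3054, 3055, 3062, 3063,
   3068, 3069, 3070, 3071, 3364, 3365, 3402, 3405, 3407, 3410, 3415, 3418, 3421, 3423, 3436,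
   3437, 3438, 3439, 3446, 3447, 3452, 3453, 3454, 3455, 3474, 3479, 3480, 3482, 3485, 3487,
   3510, 3511, 3516, 3517, 3518, 3519, 3528, 3530, 3533, 3535, 3538, 3543, 3544, 3546, 3549,
   3551, 3564, 3565, 3566, 3567, 3574, 3575, 3580, 3581, 3582, 3583, 3620, 3621, 3692, 3693,
   3694, 3695, 3702, 3703, 3708, 3709, 3710, 3711, 3766, 3767, 3772, 3773, 3774, 3775, 3820,
   3821, 3822, 3823, 3830, 3831, 3836, 3837, 3838, 3839, 3876, 3877, 3914, 3917, 3919, 3922,
   3927, 3930, 3933, 3935, 3948, 3949, 3950, 3951, 3958, 3959, 3964, 3965, 3966, 3967, 3986,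
   3991, 3992, 3994, 3997, 3999, 4022, 4023, 4028, 4029, 4030, 4031, 4040, 4042, 4045, 4047,
   4050, 4055, 4056, 4058, 4061, 4063, 4076, 4077, 4078, 4079, 4086, 4087, 4092, 4093, 4094,
   4095]

theorem key1 : (List.range 4096).all (fun n => n == 0 || !(fortb n) || fortList.contains n) =
    true := by
  decide +kernel

theorem key2 : fortList.all (fun a => fortList.all (fun b => a &&& b != 0)) = true := by
  decide +kernel

def code (F : Finset (Fin 12)) : ℕ := Nat.ofBits (fun i : Fin 12 => decide (i ∈ F))

theorem code_bit (F : Finset (Fin 12)) (i : Fin 12) : (code F).testBit i = decide (i ∈ F) := by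
  unfold code
  rw [Nat.testBit_ofBits_lt _ _ i.2]

theorem code_mem (F : Finset (Fin 12)) (hF : IsFort G0 F) : code F ∈ fortList := by
  have hlt : code F < 4096 := Nat.ofBits_lt_two_pow _
  have h := List.all_eq_true.mp key1 (code F) (List.mem_range.mpr hlt)
  have h0 : code F ≠ 0 := by
    obtain ⟨v, hv⟩ := hF.1
    intro e
    have := code_bit F v
    rw [e] at this
    simp [hv] at this
  have hb : fortb (code F) = true := by
    unfold fortb
    rw [List.all_eq_true]
    intro q hq
    obtain ⟨v, e1, e2⟩ := nbL_spec q hq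
    rw [e1, e2]
    by_cases hv : v ∈ F
    · simp [code_bit, hv]
    · have h1 := hF.2 v hv
      have h2 : (F.filter (G0.Adj v)).card =
          (((List.finRange 12).filter (fun w : Fin 12 => adjb v w)).map Fin.val).countP
            (code F).testBit := by
        rw [List.countP_map, List.countP_filter, List.countP_eq_length_filter,
          ← List.toFinset_card_of_nodup ((List.nodup_finRange 12).filter _)]
        congr 1
        ext w
        simp [code_bit, G0]
      rw [← h2]
      simp [h1]
  simpa [h0, hb] using h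

theorem meet (F F' : Finset (Fin 12)) (hF : IsFort G0 F) (hF' : IsFort G0 F') :
    ¬ Disjoint F F' := by
  intro hd
  have h := List.all_eq_true.mp (List.all_eq_true.mp key2 _ (code_mem F hF)) _ (code_mem F' hF')
  have : code F &&& code F' = 0 := by
    apply Nat.eq_of_testBit_eq
    intro i
    rw [Nat.testBit_and, Nat.zero_testBit]
    by_cases hi : i < 12
    · have a := code_bit F ⟨i, hi⟩
      have b := code_bit F' ⟨i, hi⟩
      simp only at a b
      rw [a, b]
      by_cases h1 : (⟨i, hi⟩ : Fin 12) ∈ F
      · simp [disjoint_left.mp hd h1]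
      · simp [h1]
    · unfold code
      rw [Nat.testBit_ofBits_ge _ _ (by omega)]
      simp
  simp [this] at h

theorem minimal_of (F : Finset (Fin 12)) (h1 : IsFort G0 F) (c : ℕ) (hc : code F = c)
    (h2 : fortList.all (fun a => a &&& c != a || a == c) = true) : Minimal (IsFort G0) F := by
  refine ⟨h1, fun T hT hle => ?_⟩
  have h := List.all_eq_true.mp h2 _ (code_mem T hT)
  have e : code T &&& c = code T := by
    rw [← hc]
    apply Nat.eq_of_testBit_eq
    intro i
    rw [Nat.testBit_and]
    by_cases hi : i < 12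
    · have a := code_bit T ⟨i, hi⟩
      have b := code_bit F ⟨i, hi⟩
      simp only at a b
      rw [a, b]
      by_cases h1 : (⟨i, hi⟩ : Fin 12) ∈ T
      · simp [hle h1]
      · simp [h1]
    · unfold code
      rw [Nat.testBit_ofBits_ge _ _ (by omega)]
      simp
  have e2 : code T = code F := by simpa [e, hc] using h
  intro x hx
  have a := code_bit T x
  rw [e2, code_bit] at a
  simpa [hx] using a

theorem m1 : Minimal (IsFort G0) {3, 4, 7, 8, 9} :=
  minimal_of _ (by decide +kernel) 920 (by decide +kernel) (by decide +kernel)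

theorem m2 : Minimal (IsFort G0) {3, 6, 7, 8, 10} :=
  minimal_of _ (by decide +kernel) 1480 (by decide +kernel) (by decide +kernel)

theorem m3 : Minimal (IsFort G0) {0, 1, 2, 4, 6, 11} :=
  minimal_of _ (by decide +kernel) 2135 (by decide +kernel) (by decide +kernel)

theorem m4 : Minimal (IsFort G0) {2, 5, 9, 10, 11} :=
  minimal_of _ (by decide +kernel) 3620 (by decide +kernel) (by decide +kernel)

theorem zf_eq : zf G0 = 2 := by
  apply IsLeast.csInf_eq
  refine ⟨⟨{2, 8}, by decide, zfs⟩, ?_⟩
  rintro n ⟨S, rfl, hS⟩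
  by_contra hlt
  have hit : ∀ F, IsFort G0 F → ¬ Disjoint S F := fun F hF hd => by
    obtain ⟨v, hv⟩ := hF.1
    exact not_mem_of_filled G0 hF hd (hS v) hv
  obtain ⟨a, ha⟩ := card_le_one_iff_subset_singleton.mp (show S.card ≤ 1 by omega)
  have g : ∀ F, IsFort G0 F → a ∈ F := fun F hF => by
    by_contra hn
    exact hit F hF ((disjoint_singleton_left.mpr hn).mono_left ha)
  have a1 := g _ m1.1
  have a2 := g _ m2.1
  have a3 := g _ m3.1
  revert a1 a2 a3
  clear ha g
  revert a
  decide

theorem zstar_eq : zstar G0 = 2 := by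
  apply IsLeast.csInf_eq
  constructor
  · refine ⟨fun v => if v ∈ ({2, 8} : Finset (Fin 12)) then 1 else 0, fun v => ?_,
      fun F hF => ?_, ?_⟩
    · dsimp only; split_ifs <;> norm_num
    · obtain ⟨v, hv⟩ := hF.1.1
      have hnd : ¬ Disjoint ({2, 8} : Finset (Fin 12)) F := fun hd =>
        not_mem_of_filled G0 hF.1 hd (zfs v) hv
      obtain ⟨w, hw1, hw2⟩ := not_disjoint_iff.mp hnd
      have := single_le_sum (f := fun v : Fin 12 =>
        if v ∈ ({2, 8} : Finset (Fin 12)) then (1 : ℝ) else 0)
        (fun v _ => by split_ifs <;> norm_num) hw2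
      rwa [if_pos hw1] at this
    · rw [sum_ite_mem, univ_inter, sum_const, show ({2, 8} : Finset (Fin 12)).card = 2 by decide]
      norm_num
  · rintro s ⟨x, h0, h1, rfl⟩
    have a1 := h1 _ m1
    have a2 := h1 _ m2
    have a3 := h1 _ m3
    have a4 := h1 _ m4
    simp only [Fin.sum_univ_succ, Fin.sum_univ_zero]
    simp at a1 a2 a3 a4 ⊢
    have := h0 0
    have := h0 1
    have := h0 5
    linarith

theorem ft_le : ft G0 ≤ 1 := by
  apply csSup_le'
  rintro n ⟨T, rfl, h1, h2⟩
  rw [card_le_one]
  intro a ha b hb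
  by_contra hne
  exact meet a b (h1 a ha) (h1 b hb) (h2 a ha b hb hne)

theorem result : ∃ (n : ℕ) (G : SimpleGraph (Fin n)) (_ : DecidableRel G.Adj),
    0 < n ∧ zstar G = (zf G : ℝ) ∧ ft G ≠ zf G := by
  refine ⟨12, G0, inferInstance, by norm_num, ?_, ?_⟩
  · rw [zstar_eq, zf_eq]; norm_num
  · have := ft_le
    rw [zf_eq]; omega

end Pool.Agent.Results.MP_7d76f2_co.Counter
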